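import Pool.Agent.Helper62.CX.Data
import Pool.Agent.Helper36.CX.FewG
import Pool.Agent.Helper4.BW.Pre
import Pool.Agent.Helper62.GX.Stm

/-!
# The theorem on few zeros for one eigen-summand, from the data: several factors
-/

set_option autoImplicit false

open Polynomial Matrix Finset

namespace Pool.Agent.Helper61.GX

open Pool.Agent.Helper62.BM Pool.Agent.Helper62.CX Pool.Agent.Helper62.GX
open Pool.Agent.Helper62.BW (dt Dat Gen Fam Irr IrrF W_Irr W_Strong W_Tr W_FewG sep_clear sep_map)

section maps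

variable {ι : Type} [Fintype ι] [DecidableEq ι]

theorem map_LamG {R S : Type} [CommRing R] [CommRing S] (f : R →+* S) (ρ : ι → ℕ) (a a' : ι → R) :
    f (LamG ρ a a') = LamG ρ (fun i => f (a i)) fun i => f (a' i) := by
  unfold LamG
  rw [map_sum]
  refine Finset.sum_congr rfl fun l _ => ?_
  rw [map_mul, map_mul, map_natCast, map_prod]

variable {A B : Type} [CommRing A] [CommRing B] (φ : A →+* B)

omit [DecidableEq ι] in
theorem map_prodG (a : ι → A[X][X]) :
    (∏ l, a l).map (mapRingHom φ) = ∏ l, (a l).map (mapRingHom φ) :=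
  Polynomial.map_prod _ _ _

theorem relG_map {m : ℕ} {ρ : ι → ℕ} {N : ℕ} {a : ι → A[X][X]} {W : A[X]} {P S : Fin N → A[X][X]}
    (h : RelG m ρ N a W P S) :
    RelG m ρ N (fun l => (a l).map (mapRingHom φ)) (W.map φ)
      (fun l => (P l).map (mapRingHom φ)) (fun l => (S l).map (mapRingHom φ)) := by
  intro l
  obtain ⟨h1, h2, h3⟩ := h l
  refine ⟨lt_of_le_of_lt natDegree_map_le h1, natDegree_map_le.trans h2, ?_⟩
  have h4 := congrArg (fun q => Polynomial.map (mapRingHom φ) q) h3
  have e1 : (LamG ρ a fun i => derivative (a i)).map (mapRingHom φ) =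
      LamG ρ (fun l => (a l).map (mapRingHom φ))
        fun i => derivative ((a i).map (mapRingHom φ)) := by
    have := map_LamG (mapRingHom (mapRingHom φ)) ρ a fun i => derivative (a i)
    simp only [coe_mapRingHom] at this
    rw [this]
    congr 1
    funext i
    rw [derivative_map]
  have e2 : (LamG ρ a fun i => dt (a i)).map (mapRingHom φ) =
      LamG ρ (fun l => (a l).map (mapRingHom φ)) fun i => dt ((a i).map (mapRingHom φ)) := by
    have := map_LamG (mapRingHom (mapRingHom φ)) ρ a fun i => dt (a i)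
    simp only [coe_mapRingHom] at this
    rw [this]
    congr 1
    funext i
    exact Pool.Agent.Helper62.BW.map_dt φ (a i)
  simp only [Polynomial.map_mul, Polynomial.map_add, Polynomial.map_pow, Polynomial.map_X,
    Polynomial.map_C, Polynomial.map_natCast, map_prodG, e1, e2, coe_mapRingHom] at h4
  exact h4

variable [IsDomain A] [IsDomain B]

theorem genG_map (hφ : Function.Injective φ) {nd : ι → ℕ} {a : ι → A[X][X]} (h : GenG nd a) :
    GenG nd fun l => (a l).map (mapRingHom φ) := by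
  obtain ⟨h1, h5⟩ := h
  refine ⟨fun l => ⟨(h1 l).1.map _, by rw [(h1 l).1.natDegree_map, (h1 l).2]⟩, ?_⟩
  obtain ⟨u, v, r, hr, huv⟩ := sep_clear (∏ l, a l) h5
  have h6 := sep_map ((algebraMap B[X] (FractionRing B[X])).comp (mapRingHom φ)) (∏ l, a l) u v r
    huv (by
      intro h0
      rw [RingHom.comp_apply] at h0
      have h7 := (IsFractionRing.injective B[X] (FractionRing B[X])) (h0.trans (map_zero _).symm)
      exact hr (Polynomial.map_injective φ hφ (by rw [Polynomial.map_zero]; exact h7)))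
  rw [← Polynomial.map_map, map_prodG] at h6
  exact h6

theorem famG_map (hφ : Function.Injective φ) {m N : ℕ} {ρ nd : ι → ℕ} {a : ι → A[X][X]}
    {D : Cdat A N} {P S : Fin N → A[X][X]} (h : FamG m ρ nd a D P S) :
    FamG m ρ nd (fun l => (a l).map (mapRingHom φ)) (D.map φ)
      (fun l => (P l).map (mapRingHom φ)) (fun l => (S l).map (mapRingHom φ)) := by
  obtain ⟨h1, h2, h3, h4⟩ := h
  refine ⟨genG_map φ hφ h1, h2, ?_, ?_⟩
  · rw [Pool.Agent.Helper62.CX.map_W]
    exact relG_map φ h3
  · show D.M.map (mapRingHom φ) = _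
    rw [h4]
    ext1 i j
    rw [Matrix.map_apply, coe_mapRingHom, Pool.Agent.Helper36.CX.map_Mc]

end maps

/-- Package G11. -/
theorem g_fewA (hStrong : C_Strong) (hTr : C_Tr) (hIrr : G_Irr) (hG : G_FewG)
    (hIH : G_IrrHalf) (wIrr : W_Irr) (wStrong : W_Strong) (wTr : W_Tr) (wG : W_FewG) : G_FewA := by
  intro ι _ _ m N ρ nd hρ hnd hN2 hdN hN A _ _ _ _ L _ _ θ hθ a hdat hdat2 hI hO G hG0 ε hε
  have hinjF : Function.Injective (algebraMap A (FractionRing A)) :=
    IsFractionRing.injective A (FractionRing A)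
  have hCF : CharZero (FractionRing A) := charZero_of_injective_algebraMap hinjF
  by_cases h2 : ∀ l, 2 * ρ l = m
  · -- the symplectic case
    have hne : Nonempty ι := by
      by_contra hcon
      rw [not_nonempty_iff] at hcon
      rw [Finset.univ_eq_empty, Finset.sum_empty] at hN
      omega
    obtain ⟨l₀⟩ := hne
    obtain ⟨r, hr0, hrm⟩ : ∃ r, 0 < r ∧ 2 * r = m := ⟨ρ l₀, (hρ l₀).1, h2 l₀⟩
    have hρr : ∀ l, ρ l = r := fun l => by
      have := h2 l
      omega
    have hsum : ∑ l, ρ l * nd l = r * ∑ l, nd l := by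
      rw [Finset.mul_sum]
      exact Finset.sum_congr rfl fun l _ => by rw [hρr]
    have hodd : ¬ 2 ∣ ∑ l, nd l := by
      rintro ⟨c, hc⟩
      apply hnd
      refine ⟨c, ?_⟩
      rw [hsum, hc, ← hrm]
      ring
    have hdC : dG m ρ nd = (∑ l, nd l) / 2 := by
      unfold dG
      rw [hsum, ← hrm, mul_comm 2 r]
      exact Nat.mul_div_mul_left _ _ hr0
    have hNg : N = 2 * dG m ρ nd := by
      rw [hdC]
      omega
    have hg1 : 1 ≤ dG m ρ nd := by omega
    obtain ⟨D, P, S, hFam, hOk⟩ := hdat2 _ h2 hNg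
    rw [hNg] at hI
    have k0 := hIH ι L m (dG m ρ nd) ρ (by omega) h2 hg1 _ hI
    have k1 := Pool.Agent.Helper4.BW.fam_map θ hθ hFam
    have k2 := Pool.Agent.Helper62.BW.ok_inj D hOk θ hθ
    rw [map_prodG] at k1
    have k3 := wIrr L _ hg1 _ _ _ _ k1 k2 k0
    have k4 := wStrong L _ hg1 _ k2 k3
    have k5 := wTr A _ D hOk L (FractionRing A) _ _ hθ hinjF k4
    obtain ⟨p₀, a₀, ha₀, h⟩ := wG _ hg1 A (∏ l, a l) D P S hFam hOk k5 G hG0 ε hε
    refine ⟨p₀, a₀, ha₀, ?_⟩
    intro p _ k _ _ φ hp hmp hφ T hT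
    refine h p k φ hp hφ T fun t ht => ⟨(hT t ht).1, ?_⟩
    have h3 := (hT t ht).2
    rw [← h3]
    congr 1
    funext s
    congr 1
    have hq : ∀ l, ρ l * ((p - 1) / m) = (p - 1) / 2 := by
      intro l
      obtain ⟨c, hc⟩ := hmp
      have hm0 : 0 < m := by omega
      rw [hρr, hc, Nat.mul_div_cancel_left _ hm0, ← hrm, mul_assoc,
        Nat.mul_div_cancel_left _ two_pos]
    unfold YG Yh
    rw [Matrix.of_apply, Matrix.of_apply, map_prodG]
    simp only [hq, Finset.prod_pow]
    rfl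
  · -- the special linear case
    obtain ⟨D, P, S, hFam, hOk⟩ := hdat
    have k1 := famG_map θ hθ hFam
    have k2 := Pool.Agent.Helper62.CX.ok_inj D hOk θ hθ
    obtain ⟨hi, hb⟩ := hIrr ι L m N ρ nd hρ (by omega) _ _ _ _ k1 k2
    have k3 := hi hI
    have k4 : (D.map θ).Strong := by
      refine hStrong L N hN2 _ k2 k3 ?_
      rcases hO with h | h | h | h
      · exact absurd h h2
      · exact Or.inl h
      · exact Or.inr (Or.inl h)
      · exact Or.inr (Or.inr (hb k3 h))
    have k5 := hTr A N D hOk L (FractionRing A) _ _ hθ hinjF k4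
    exact hG ι m N ρ nd hρ hnd hN2 hdN A a D P S hFam hOk k5 G hG0 ε hε

end Pool.Agent.Helper61.GX
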